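import Pool.Agent.TH793.NG.Lead
import Pool.Agent.TH266.NS.Defs

/-! The analytic input: the tube around `y ^ 2 = (1 + x) (x ^ 2 - t)`. -/

set_option autoImplicit false

namespace Pool.Agent.TH793.NS

open Pool.Agent.TH603.EL Pool.Agent.TH603.EL.Scal2 Pool.Agent.TH793.NG

section gen
variable {F : Type} [Field F]

theorem rescale_C' (κ r : F) : PowerSeries.rescale κ (PowerSeries.C r) = PowerSeries.C r := by
  ext n
  rw [PowerSeries.coeff_rescale, PowerSeries.coeff_C]
  split_ifs with h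
  · subst h; simp
  · simp


theorem Em_evR {a b s c : ℝ} {κ : F} {x : HR F} (ha : 0 < a) (hb : 0 < b) (hs : 0 < s)
    {A : Polynomial (HK F)} (hA : ∀ k, Low (A.coeff k) c) (hx : Mc a b s 0 x)
    (hX : Em b 0 x = PowerSeries.rescale κ PowerSeries.X) :
    Em b c (evA x A) = PowerSeries.rescale κ (bar c A : PowerSeries F) := by
  unfold evA
  rw [Polynomial.eval₂_eq_sum_range, Em_sum]
  have h1 : ∀ k ∈ Finset.range (A.natDegree + 1), Em b c (incl (A.coeff k) * x ^ k) =
      PowerSeries.rescale κ (PowerSeries.C ((A.coeff k).coeff c) * PowerSeries.X ^ k) := by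
    intro k _
    have h2 := Em_mul ha hb hs (Mc.incl (a := a) (b := b) (s := s) (hA k)) (hx.pow k)
    rw [add_zero, Em_incl hb, Em_pow ha hb hs hx, hX] at h2
    rw [h2, map_mul, map_pow, rescale_C']
  rw [Finset.sum_congr rfl h1, ← map_sum]
  congr 1
  ext n
  rw [Polynomial.coeff_coe, coeff_bar, map_sum]
  simp only [PowerSeries.coeff_C_mul, PowerSeries.coeff_X_pow, mul_ite, mul_one, mul_zero]
  rw [Finset.sum_ite_eq (Finset.range (A.natDegree + 1)) n]
  split_ifs with h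
  · rfl
  · rw [Finset.mem_range, not_lt] at h
    rw [Polynomial.coeff_eq_zero_of_natDegree_lt (by omega)]
    simp

theorem norm_deg' (A B : Polynomial F) {M : ℕ} (hA : 2 * A.natDegree ≤ M)
    (hB : B = 0 ∨ 2 * B.natDegree + 3 ≤ M) :
    (A ^ 2 - Polynomial.X ^ 2 * (1 + Polynomial.X) * B ^ 2).natDegree ≤ M := by
  have hXd : (1 + Polynomial.X : Polynomial F).natDegree ≤ 1 := by
    have : (1 + Polynomial.X : Polynomial F) = Polynomial.X + Polynomial.C 1 := by
      rw [Polynomial.C_1, add_comm]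
    rw [this, Polynomial.natDegree_X_add_C]
  have h1 : (A ^ 2).natDegree ≤ M := (Polynomial.natDegree_pow_le).trans hA
  have h2 : (Polynomial.X ^ 2 * (1 + Polynomial.X) * B ^ 2).natDegree ≤ M := by
    rcases hB with hB | hB
    · subst hB; simp
    · refine (Polynomial.natDegree_mul_le).trans ?_
      have h3 : (Polynomial.X ^ 2 * (1 + Polynomial.X) : Polynomial F).natDegree ≤ 3 := by
        refine (Polynomial.natDegree_mul_le).trans ?_
        rw [Polynomial.natDegree_X_pow]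
        omega
      have h4 : (B ^ 2).natDegree ≤ 2 * B.natDegree := Polynomial.natDegree_pow_le
      omega
  exact (Polynomial.natDegree_sub_le _ _).trans (max_le h1 h2)

/-- the leading coefficient of a section, general form -/
theorem g_lead' {a b s c : ℝ} {κ : F} (hκ : κ ≠ 0) {x y : HR F} {σ : PowerSeries F}
    (ha : 0 < a) (hb : 0 < b) (hs : 0 < s) (hab : a + b = 1)
    (hxx : Mc a b s 0 x) (hyy : Mc a b s 0 y)
    (hσ : σ * σ = 1 + PowerSeries.X) (hpx : Ep a 0 x = PowerSeries.X)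
    (hmx : Em b 0 x = PowerSeries.rescale κ PowerSeries.X)
    (hp : Ep a 0 y = -(σ * PowerSeries.X))
    (hm : Em b 0 y = PowerSeries.rescale κ (σ * PowerSeries.X)) {M : ℕ}
    (A B : Polynomial (HK F)) (hcA : ∀ k, Low (A.coeff k) c) (hcB : ∀ k, Low (B.coeff k) c)
    (hc : bar c A ≠ 0 ∨ bar c B ≠ 0) (hA : 2 * A.natDegree ≤ M)
    (hB : B = 0 ∨ 2 * B.natDegree + 3 ≤ M) (hsm : (M : ℝ) < s) :
    ∃ n : ℝ, c ≤ n ∧ n ≤ c + M ∧ Low (evA x A + evA x B * y) n ∧
      (∃ i, cf (evA x A + evA x B * y) n i 0 ≠ 0) ∧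
      ∀ i j, cf (evA x A + evA x B * y) n i j ≠ 0 →
        j = 0 ∧ -(M * a) ≤ i ∧ (i : ℝ) ≤ M * b := by
  obtain ⟨G, hG⟩ : ∃ G, G = evA x A + evA x B * y := ⟨_, rfl⟩
  rw [← hG]
  have hMA := evA_wedge hcA hxx
  have hMB := evA_wedge hcB hxx
  have hM : Mc a b s c G := by
    rw [hG]
    refine hMA.add ?_
    have := hMB.mul hyy
    rwa [add_zero] at this
  have hEp : Ep a c G = (bar c A : PowerSeries F) - (bar c B : PowerSeries F) * (σ * PowerSeries.X) := by
    have h1 := Ep_mul ha hb hs hMB hyy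
    rw [add_zero, hp, Ep_evA ha hb hs hcB hxx hpx] at h1
    rw [hG, Ep_add, h1, Ep_evA ha hb hs hcA hxx hpx]
    ring
  have hEm : Em b c G = PowerSeries.rescale κ
      ((bar c A : PowerSeries F) + (bar c B : PowerSeries F) * (σ * PowerSeries.X)) := by
    have h1 := Em_mul ha hb hs hMB hyy
    rw [add_zero, hm, Em_evR ha hb hs hcB hxx hmx] at h1
    rw [hG, Em_add, h1, Em_evR ha hb hs hcA hxx hmx, ← map_mul, ← map_add]
  obtain ⟨E1, hE1⟩ : ∃ E1, E1 = (bar c A : PowerSeries F) + (bar c B : PowerSeries F) *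
    (σ * PowerSeries.X) := ⟨_, rfl⟩
  rw [← hE1] at hEm
  obtain ⟨N, hN⟩ : ∃ N : Polynomial F, N = bar c A ^ 2 - Polynomial.X ^ 2 * (1 + Polynomial.X) * bar c B ^ 2 :=
    ⟨_, rfl⟩
  have hN0 : N ≠ 0 := by rw [hN]; exact norm_ne _ _ hc
  have hNd : N.natDegree ≤ M := by
    rw [hN]
    refine norm_deg' _ _ ?_ ?_
    · have := natDegree_bar c A
      omega
    rcases hB with hB | hB
    · left
      ext k
      rw [coeff_bar, hB]; simp
    · right
      have := natDegree_bar c B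
      omega
  have hprod : Ep a c G * E1 = (N : PowerSeries F) := by
    rw [hEp, hE1, hN]
    push_cast
    linear_combination (-(PowerSeries.X ^ 2) * (bar c B : PowerSeries F) ^ 2) * hσ
  have hNs : (N : PowerSeries F) ≠ 0 := by
    intro h
    apply hN0
    exact_mod_cast h
  have hEp0 : Ep a c G ≠ 0 := fun h => hNs (by rw [← hprod, h, zero_mul])
  have hE10 : E1 ≠ 0 := fun h => hNs (by rw [← hprod, h, mul_zero])
  have hord : (Ep a c G).order + E1.order ≤ ((M : ℕ) : ℕ∞) := by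
    rw [← PowerSeries.order_mul, hprod]
    refine (PowerSeries.order_le N.natDegree ?_).trans (by exact_mod_cast hNd)
    rw [Polynomial.coeff_coe]
    exact Polynomial.leadingCoeff_ne_zero.2 hN0
  obtain ⟨i0, hi0⟩ : ∃ i0 : ℕ, (Ep a c G).order = i0 :=
    ⟨_, (PowerSeries.coe_toNat_order hEp0).symm⟩
  obtain ⟨i1, hi1⟩ : ∃ i1 : ℕ, E1.order = i1 :=
    ⟨_, (PowerSeries.coe_toNat_order hE10).symm⟩
  rw [hi0, hi1] at hord
  have hle : i0 + i1 ≤ M := by exact_mod_cast hord
  have h0 : cf G (c + a * i0) i0 0 ≠ 0 := by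
    have := PowerSeries.coeff_order hEp0
    rw [hi0] at this
    simpa [Ep] using this
  have h1 : cf G (c + b * i1) (-i1) 0 ≠ 0 := by
    have h2 := PowerSeries.coeff_order hE10
    rw [hi1] at h2
    have h3 : PowerSeries.coeff i1 (Em b c G) = κ ^ i1 * PowerSeries.coeff i1 E1 := by
      rw [hEm, PowerSeries.coeff_rescale]
    have h4 : PowerSeries.coeff i1 (Em b c G) ≠ 0 := by
      rw [h3]
      exact mul_ne_zero (pow_ne_zero _ hκ) (by simpa using h2)
    simpa [Em] using h4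
  have hcoeff : ∀ n i j, cf G n i j ≠ 0 → G.coeff n ≠ 0 := by
    intro n i j h h2
    apply h
    unfold cf
    rw [h2]; simp
  have hG0 : G ≠ 0 := by
    intro h
    apply h0
    rw [h, cf_zero]
  have ho0 : G.order ≤ c + a * i0 := HahnSeries.order_le_of_coeff_ne_zero (hcoeff _ _ _ h0)
  have ho1 : G.order ≤ c + b * i1 := HahnSeries.order_le_of_coeff_ne_zero (hcoeff _ _ _ h1)
  have hle' : (i0 : ℝ) + i1 ≤ M := by exact_mod_cast hle
  have hi0' : (0 : ℝ) ≤ i0 := Nat.cast_nonneg _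
  have hi1' : (0 : ℝ) ≤ i1 := Nat.cast_nonneg _
  have ha1 : a ≤ 1 := by linarith
  have hbd : a * i0 ≤ M := by nlinarith
  have hall : ∀ i j, cf G G.order i j ≠ 0 → j = 0 ∧ -(M * a) ≤ (i : ℝ) ∧ (i : ℝ) ≤ M * b ∧
      c ≤ G.order := by
    intro i j hij
    obtain ⟨g1, g2, g3⟩ := hM _ _ _ hij
    have hj : j = 0 := by
      by_contra hj
      have hj1 : (1 : ℝ) ≤ j := by
        have : 1 ≤ j := by omega
        exact_mod_cast this
      have h5 : s ≤ s * j := by nlinarith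
      rcases le_total (0 : ℝ) i with h7 | h7
      · nlinarith
      · nlinarith
    subst hj
    push_cast at g2 g3
    have k1 : a * i ≤ a * i0 := by linarith
    have k2 : a * i ≤ b * i1 := by linarith
    have k3 : -(b * i) ≤ a * i0 := by linarith
    have k4 : -(b * i) ≤ b * i1 := by linarith
    have k5 : (i : ℝ) ≤ i0 := le_of_mul_le_mul_left k1 ha
    have k6 : -(i : ℝ) ≤ i1 := by
      have : b * (-(i : ℝ)) ≤ b * i1 := by linarith
      exact le_of_mul_le_mul_left this hb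
    refine ⟨rfl, ?_, ?_, ?_⟩
    · have k7 : a * (-(i : ℝ)) ≤ a * i1 := mul_le_mul_of_nonneg_left k6 ha.le
      have k8 : (i : ℝ) = a * i + b * i := by rw [← add_mul, hab, one_mul]
      have k9 : a * ((i0 : ℝ) + i1) ≤ a * M := mul_le_mul_of_nonneg_left hle' ha.le
      linarith
    · have k7 : b * (i : ℝ) ≤ b * i0 := mul_le_mul_of_nonneg_left k5 hb.le
      have k8 : (i : ℝ) = a * i + b * i := by rw [← add_mul, hab, one_mul]
      have k9 : b * ((i0 : ℝ) + i1) ≤ b * M := mul_le_mul_of_nonneg_left hle' hb.le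
      linarith
    · rcases le_total (0 : ℝ) i with h7 | h7
      · nlinarith
      · nlinarith
  obtain ⟨i, j, hij⟩ : ∃ i j, cf G G.order i j ≠ 0 := by
    by_contra hcon
    push Not at hcon
    apply HahnSeries.coeff_order_eq_zero.not.2 hG0
    ext ⟨i, j⟩
    exact hcon i j
  obtain ⟨e1, e2, e3, e4⟩ := hall i j hij
  refine ⟨G.order, e4, by linarith, fun n hn => HahnSeries.coeff_eq_zero_of_lt_order hn,
    ⟨i, by rw [← e1]; exact hij⟩, fun i' j' h => ?_⟩
  obtain ⟨f1, f2, f3, _⟩ := hall i' j' h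
  exact ⟨f1, f2, f3⟩

end gen

section coord
variable (F : Type) [Field F] [CharZero F]

/-- the constant `1 / 4` -/
noncomputable def c4 : HR F := incl (HahnSeries.C (1 / 4 : F))

theorem low_c4 : Low (c4 F) 0 := by
  unfold c4
  exact Low.incl (low_single 0 _)

theorem four_c4 : 4 * c4 F = 1 := by
  unfold c4
  have h : (4 : HR F) = incl (HahnSeries.C (4 : F)) := by
    rw [map_ofNat, map_ofNat]
  rw [h, ← map_mul, ← map_mul]
  norm_num

variable (a b s : ℝ)

/-- the second coordinate at the node -/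
noncomputable def q1 : HR F := c4 F * pQ F b s
/-- the second coordinate at the node, `Y = 0` -/
noncomputable def q0 : HR F := c4 F * tz F b (-1) 0

variable {F}
/-- `x` from the second coordinate -/
noncomputable def X1 (Q : HR F) : HR F := pP F a + Q
/-- `y` from the second coordinate -/
noncomputable def Y1 (Q : HR F) : HR F := rt (X1 a Q) * (Q - pP F a)

variable {a b s}

theorem low_X1 {Q : HR F} (hQ : Low Q b) : Low (X1 a Q) (min a b) := by
  unfold X1 pP
  exact ((low_tz a 1 0).mono (min_le_left a b)).add (hQ.mono (min_le_right a b))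

theorem ord_X1 (ha : 0 < a) (hb : 0 < b) {Q : HR F} (hQ : Low Q b) : 0 < (X1 a Q).orderTop :=
  orderTop_pos_of_low (lt_min ha hb) (low_X1 hQ)

theorem Mc_X1 (ha : 0 < a) (hb : 0 < b) (hs : 0 < s) {Q : HR F} (hQ : Mc a b s 0 Q) :
    Mc a b s 0 (X1 a Q) := (Mc_P F ha hb hs).add hQ

theorem Mc_Y1 (ha : 0 < a) (hb : 0 < b) (hs : 0 < s) {Q : HR F} (hQl : Low Q b)
    (hQ : Mc a b s 0 Q) : Mc a b s 0 (Y1 a Q) := by
  have := (rt_wedge (ord_X1 ha hb hQl) (Mc_X1 ha hb hs hQ)).mul (hQ.sub (Mc_P F ha hb hs))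
  rw [add_zero] at this
  exact this

theorem Ep_X1 (ha : 0 < a) {Q : HR F} (hQp : Ep a 0 Q = 0) :
    Ep a 0 (X1 a Q) = PowerSeries.X := by
  unfold X1; rw [Ep_add, Ep_P F ha, hQp, add_zero]

theorem Em_X1 {Q : HR F} (hQm : Em b 0 Q = PowerSeries.rescale (1 / 4 : F) PowerSeries.X) :
    Em b 0 (X1 a Q) = PowerSeries.rescale (1 / 4 : F) PowerSeries.X := by
  unfold X1; rw [Em_add, Em_P, hQm, zero_add]

theorem edges_Y1 (ha : 0 < a) (hb : 0 < b) (hs : 0 < s) {Q : HR F} (hQl : Low Q b)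
    (hQ : Mc a b s 0 Q) (hQp : Ep a 0 Q = 0)
    (hQm : Em b 0 Q = PowerSeries.rescale (1 / 4 : F) PowerSeries.X) : ∃ σ : PowerSeries F,
    σ * σ = 1 + PowerSeries.X ∧ Ep a 0 (Y1 a Q) = -(σ * PowerSeries.X) ∧
      Em b 0 (Y1 a Q) = PowerSeries.rescale (1 / 4 : F) (σ * PowerSeries.X) := by
  have hrt := rt_wedge (ord_X1 ha hb hQl) (Mc_X1 ha hb hs hQ)
  have h1 : Ep a 0 (rt (X1 a Q)) * Ep a 0 (rt (X1 a Q)) = 1 + PowerSeries.X := by
    have h2 := Ep_mul ha hb hs hrt hrt
    rw [rt_mul (ord_X1 ha hb hQl), add_zero, Ep_add, Ep_one ha, Ep_X1 ha hQp] at h2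
    exact h2.symm
  have h1' : Em b 0 (rt (X1 a Q)) * Em b 0 (rt (X1 a Q)) =
      1 + PowerSeries.rescale (1 / 4 : F) PowerSeries.X := by
    have h2 := Em_mul ha hb hs hrt hrt
    rw [rt_mul (ord_X1 ha hb hQl), add_zero, Em_add, Em_one hb, Em_X1 hQm] at h2
    exact h2.symm
  have c1 : PowerSeries.coeff 0 (Ep a 0 (rt (X1 a Q))) = 1 := by
    simp only [Ep, PowerSeries.coeff_mk]
    have := cf_rt (X1 a Q)
    simpa using this
  have c2 : PowerSeries.coeff 0 (Em b 0 (rt (X1 a Q))) = 1 := by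
    simp only [Em, PowerSeries.coeff_mk]
    have := cf_rt (X1 a Q)
    simpa using this
  have c3 : PowerSeries.coeff 0 (PowerSeries.rescale (1 / 4 : F) (Ep a 0 (rt (X1 a Q)))) = 1 := by
    rw [PowerSeries.coeff_rescale, c1]; simp
  have h1'' : PowerSeries.rescale (1 / 4 : F) (Ep a 0 (rt (X1 a Q))) *
      PowerSeries.rescale (1 / 4 : F) (Ep a 0 (rt (X1 a Q))) =
      1 + PowerSeries.rescale (1 / 4 : F) PowerSeries.X := by
    rw [← map_mul, h1, map_add, map_one]
  have h3 : PowerSeries.rescale (1 / 4 : F) (Ep a 0 (rt (X1 a Q))) = Em b 0 (rt (X1 a Q)) := by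
    have h4 : (PowerSeries.rescale (1 / 4 : F) (Ep a 0 (rt (X1 a Q))) - Em b 0 (rt (X1 a Q))) *
        (PowerSeries.rescale (1 / 4 : F) (Ep a 0 (rt (X1 a Q))) + Em b 0 (rt (X1 a Q))) = 0 := by
      linear_combination h1'' - h1'
    rcases mul_eq_zero.1 h4 with h5 | h5
    · exact sub_eq_zero.1 h5
    · exfalso
      have h6 := congrArg (PowerSeries.coeff 0) h5
      rw [map_add, c3, c2, map_zero] at h6
      have : (2 : F) ≠ 0 := two_ne_zero
      apply this
      rw [← h6]; norm_num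
  refine ⟨Ep a 0 (rt (X1 a Q)), h1, ?_, ?_⟩
  · have h5 := Ep_mul ha hb hs hrt (hQ.sub (Mc_P F ha hb hs))
    rw [add_zero, sub_eq_add_neg, Ep_add, Ep_neg, hQp, Ep_P F ha, zero_add] at h5
    unfold Y1
    rw [sub_eq_add_neg, h5]
    ring
  · have h5 := Em_mul ha hb hs hrt (hQ.sub (Mc_P F ha hb hs))
    rw [add_zero, sub_eq_add_neg, Em_add, Em_neg, hQm, Em_P F, neg_zero, add_zero] at h5
    unfold Y1
    rw [sub_eq_add_neg, h5, map_mul, h3]

theorem Mc_c4 : Mc a b s 0 (c4 F) := by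
  unfold c4
  exact Mc.incl (low_single 0 _)

theorem Ep_c4 (ha : 0 < a) : Ep a 0 (c4 F) = PowerSeries.C (1 / 4 : F) := by
  unfold c4
  rw [Ep_incl ha]
  simp

theorem Em_c4 (hb : 0 < b) : Em b 0 (c4 F) = PowerSeries.C (1 / 4 : F) := by
  unfold c4
  rw [Em_incl hb]
  simp

theorem Em_tzb : Em b 0 (tz F b (-1) 0) = PowerSeries.X := by
  classical
  ext k
  simp only [Em, PowerSeries.coeff_mk, cf_tz, PowerSeries.coeff_X]
  by_cases hk : k = 1
  · subst hk
    rw [if_pos rfl, if_pos]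
    exact ⟨by simp, by simp, trivial⟩
  · rw [if_neg hk, if_neg]
    rintro ⟨_, h, _⟩
    apply hk; omega

theorem Ep_tzb : Ep a 0 (tz F b (-1) 0) = 0 := by
  classical
  ext k
  simp only [Ep, PowerSeries.coeff_mk, cf_tz, map_zero]
  rw [if_neg]
  rintro ⟨_, h, _⟩; omega

theorem rescaleX : PowerSeries.rescale (1 / 4 : F) PowerSeries.X =
    PowerSeries.C (1 / 4 : F) * PowerSeries.X := by
  ext n
  rw [PowerSeries.coeff_rescale, PowerSeries.coeff_C_mul, PowerSeries.coeff_X]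
  split_ifs with h
  · subst h; simp
  · simp

theorem q0_data (ha : 0 < a) (hb : 0 < b) (hs : 0 < s) : Low (q0 F b) b ∧ Mc a b s 0 (q0 F b) ∧
    Ep a 0 (q0 F b) = 0 ∧ Em b 0 (q0 F b) = PowerSeries.rescale (1 / 4 : F) PowerSeries.X := by
  have hM : Mc a b s 0 (tz F b (-1) 0) := Mc.tz le_rfl (by push_cast; linarith) (by push_cast; linarith)
  unfold q0
  refine ⟨?_, ?_, ?_, ?_⟩
  · have := (low_c4 F).mul (low_tz (F := F) b (-1) 0)
    rwa [zero_add] at this
  · have := (Mc_c4 (F := F) (a := a) (b := b) (s := s)).mul hM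
    rwa [add_zero] at this
  · have := Ep_mul ha hb hs (Mc_c4 (F := F) (a := a) (b := b) (s := s)) hM
    rw [add_zero, Ep_tzb, mul_zero] at this
    exact this
  · have := Em_mul ha hb hs (Mc_c4 (F := F) (a := a) (b := b) (s := s)) hM
    rw [add_zero, Em_tzb, Em_c4 hb] at this
    rw [this, rescaleX]

end coord

end Pool.Agent.TH793.NS
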