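import Pool.Agent.TH793.NS.Curve
import Pool.Agent.TH603.EL.Van1

/-! The tube of the interface `Pool.Agent.TH266.NS.Tube`. -/

set_option autoImplicit false

namespace Pool.Agent.TH793.NS

open Pool.Agent.TH603.EL Pool.Agent.TH603.EL.Scal2 Pool.Agent.TH793.NG Pool.Agent.TH266.NS

section expo
variable {F : Type} [Field F]

/-- the part of even pole orders -/
noncomputable def pA (M : ℕ) (a : ℕ → HK F) : Polynomial (HK F) :=
  ∑ m ∈ EE M, if Even m then Polynomial.monomial (m / 2) (a m) else 0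

/-- the part of odd pole orders -/
noncomputable def pB (M : ℕ) (a : ℕ → HK F) : Polynomial (HK F) :=
  ∑ m ∈ EE M, if Even m then 0 else Polynomial.monomial ((m - 3) / 2) (a m)

theorem gg_eq (x y : HR F) (M : ℕ) (a : ℕ → HK F) :
    gg x y M a = evA x (pA M a) + evA x (pB M a) * y := by
  unfold gg pA pB evA
  rw [Polynomial.eval₂_finsetSum, Polynomial.eval₂_finsetSum, Finset.sum_mul,
    ← Finset.sum_add_distrib]
  refine Finset.sum_congr rfl fun m _ => ?_
  unfold bb
  split_ifs with h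
  · rw [Polynomial.eval₂_monomial]; simp
  · rw [Polynomial.eval₂_monomial]; simp [mul_assoc]

theorem mem_EE {m M : ℕ} : m ∈ EE M ↔ m ≤ M ∧ m ≠ 1 := by
  unfold EE
  rw [Finset.mem_erase, Finset.mem_range]
  constructor
  · rintro ⟨h1, h2⟩; exact ⟨by omega, h1⟩
  · rintro ⟨h1, h2⟩; exact ⟨h2, by omega⟩

theorem low_pA {M : ℕ} {a : ℕ → HK F} {b : ℝ} (h : ∀ m ∈ EE M, Low (a m) b) (k : ℕ) :
    Low ((pA M a).coeff k) b := by
  unfold pA
  rw [Polynomial.finsetSum_coeff]
  apply Low.sum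
  intro m hm
  split_ifs with h1
  · rw [Polynomial.coeff_monomial]
    split_ifs
    · exact h m hm
    · exact low_zero b
  · rw [Polynomial.coeff_zero]; exact low_zero b

theorem low_pB {M : ℕ} {a : ℕ → HK F} {b : ℝ} (h : ∀ m ∈ EE M, Low (a m) b) (k : ℕ) :
    Low ((pB M a).coeff k) b := by
  unfold pB
  rw [Polynomial.finsetSum_coeff]
  apply Low.sum
  intro m hm
  split_ifs with h1
  · rw [Polynomial.coeff_zero]; exact low_zero b
  · rw [Polynomial.coeff_monomial]
    split_ifs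
    · exact h m hm
    · exact low_zero b

theorem coeff_pA {M : ℕ} (a : ℕ → HK F) {m : ℕ} (hm : m ∈ EE M) (he : Even m) :
    (pA M a).coeff (m / 2) = a m := by
  unfold pA
  rw [Polynomial.finsetSum_coeff, Finset.sum_eq_single m]
  · rw [if_pos he, Polynomial.coeff_monomial, if_pos rfl]
  · intro k _ hne
    split_ifs with h1
    · rw [Polynomial.coeff_monomial, if_neg]
      obtain ⟨u, hu⟩ := h1
      obtain ⟨v, hv⟩ := he
      omega
    · rw [Polynomial.coeff_zero]
  · intro h; exact absurd hm h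

theorem coeff_pB {M : ℕ} (a : ℕ → HK F) {m : ℕ} (hm : m ∈ EE M) (he : ¬ Even m) :
    (pB M a).coeff ((m - 3) / 2) = a m := by
  unfold pB
  rw [Polynomial.finsetSum_coeff, Finset.sum_eq_single m]
  · rw [if_neg he, Polynomial.coeff_monomial, if_pos rfl]
  · intro k hk hne
    split_ifs with h1
    · rw [Polynomial.coeff_zero]
    · rw [Polynomial.coeff_monomial, if_neg]
      obtain ⟨u, hu⟩ := Nat.not_even_iff_odd.1 h1
      obtain ⟨v, hv⟩ := Nat.not_even_iff_odd.1 he
      have h2 := (mem_EE.1 hk).2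
      have h3 := (mem_EE.1 hm).2
      omega
  · intro h; exact absurd hm h

theorem deg_pA (M : ℕ) (a : ℕ → HK F) : 2 * (pA M a).natDegree ≤ M := by
  have h : (pA M a).natDegree ≤ M / 2 := by
    unfold pA
    apply Polynomial.natDegree_sum_le_of_forall_le
    intro m hm
    have := (mem_EE.1 hm).1
    split_ifs
    · exact (Polynomial.natDegree_monomial_le _).trans (Nat.div_le_div_right this)
    · simp
  omega

theorem deg_pB (M : ℕ) (a : ℕ → HK F) : pB M a = 0 ∨ 2 * (pB M a).natDegree + 3 ≤ M := by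
  by_cases hM : 3 ≤ M
  · right
    have h : (pB M a).natDegree ≤ (M - 3) / 2 := by
      unfold pB
      apply Polynomial.natDegree_sum_le_of_forall_le
      intro m hm
      have := (mem_EE.1 hm).1
      split_ifs
      · simp
      · exact (Polynomial.natDegree_monomial_le _).trans (Nat.div_le_div_right (by omega))
    omega
  · left
    unfold pB
    apply Finset.sum_eq_zero
    intro m hm
    obtain ⟨h1, h2⟩ := mem_EE.1 hm
    rw [if_pos]
    have : m = 0 ∨ m = 2 := by omega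
    rcases this with h | h
    · subst h; exact Even.zero
    · subst h; exact even_two

end expo

section tube
variable {F : Type} [Field F] [CharZero F] {a b s : ℝ}

theorem expo0 (ha : 0 < a) (hb : 0 < b) (hab : a + b = 1) (M : ℕ) (f : ℕ → HK F) (c : ℝ)
    (hf : ∀ m ∈ EE M, Low (f m) c) (hne : ∃ m ∈ EE M, (f m).coeff c ≠ 0) :
    ∃ o : ℝ, c ≤ o ∧ o ≤ c + M ∧ Low (gg (X1 a (q0 F b)) (Y1 a (q0 F b)) M f) o ∧
      (∃ i : ℤ, cf (gg (X1 a (q0 F b)) (Y1 a (q0 F b)) M f) o i 0 ≠ 0) ∧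
      ∀ i j : ℤ, cf (gg (X1 a (q0 F b)) (Y1 a (q0 F b)) M f) o i j ≠ 0 →
        j = 0 ∧ -(M * a) ≤ i ∧ (i : ℝ) ≤ M * b := by
  have hs : (0 : ℝ) < (M : ℝ) + 1 := by positivity
  obtain ⟨h1, h2, h3, h4⟩ := q0_data (F := F) ha hb hs
  obtain ⟨σ, hσ, e1, e2⟩ := edges_Y1 ha hb hs h1 h2 h3 h4
  rw [gg_eq]
  have hκ : (1 / 4 : F) ≠ 0 := by
    have : (4 : F) ≠ 0 := by norm_num
    exact one_div_ne_zero this
  refine g_lead' hκ ha hb hs hab (Mc_X1 ha hb hs h2) (Mc_Y1 ha hb hs h1 h2) hσ (Ep_X1 ha h3)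
    (Em_X1 h4) e1 e2 (pA M f) (pB M f) (low_pA hf) (low_pB hf) ?_ (deg_pA M f) (deg_pB M f)
    (by linarith)
  obtain ⟨m, hm, hm0⟩ := hne
  by_cases he : Even m
  · left
    intro h0
    have h5 := coeff_bar c (pA M f) (m / 2)
    rw [h0, Polynomial.coeff_zero, coeff_pA f hm he] at h5
    exact hm0 h5.symm
  · right
    intro h0
    have h5 := coeff_bar c (pB M f) ((m - 3) / 2)
    rw [h0, Polynomial.coeff_zero, coeff_pB f hm he] at h5
    exact hm0 h5.symm

theorem Low_of_Mc {x : HR F} (ha : 0 < a) (hb : 0 < b) (hs : 0 < s) (h : Mc a b s 0 x) :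
    Low x 0 := by
  intro n hn
  ext ⟨i, j⟩
  by_contra hc
  obtain ⟨g1, g2, g3⟩ := h n i j hc
  have g1' : (0 : ℝ) ≤ j := by exact_mod_cast g1
  have g4 : 0 ≤ s * j := mul_nonneg hs.le g1'
  rcases le_total (0 : ℝ) i with h7 | h7
  · have : 0 ≤ a * i := mul_nonneg ha.le h7
    linarith
  · have : 0 ≤ b * (-(i : ℝ)) := mul_nonneg hb.le (by linarith)
    linarith

theorem low_q1 : Low (q1 F b s) (min b (b + s)) := by
  unfold q1 pQ
  have := (low_c4 F).mul (((low_tz (F := F) b (-1) 0).mono (min_le_left b (b + s))).add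
    ((low_tz (F := F) (b + s) (-1) 1).mono (min_le_right b (b + s))))
  rwa [zero_add] at this

theorem low_q1' (hs : 0 < s) : Low (q1 F b s) b := low_q1.mono (by
  rw [min_eq_left (by linarith)])

theorem Mc_q1 (ha : 0 < a) (hb : 0 < b) (hs : 0 < s) : Mc a b s 0 (q1 F b s) := by
  have := (Mc_c4 (F := F) (a := a) (b := b) (s := s)).mul (Mc_Q F ha hb hs)
  rwa [add_zero] at this

theorem q1_sub : q1 F b s - q0 F b = c4 F * tz F (b + s) (-1) 1 := by
  unfold q1 q0 pQ; ring

theorem low_dq : Low (q1 F b s - q0 F b) (b + s) := by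
  rw [q1_sub]
  have := (low_c4 F).mul (low_tz (F := F) (b + s) (-1) 1)
  rwa [zero_add] at this

/-- the square root at the point of the residue field -/
theorem rt_coeff {x : HR F} {c : ℝ} (hc : 0 < c) (hx : Low x c) (h0 : Low (rt x) 0) :
    (rt x).coeff 0 = 1 := by
  have h1 : (rt x * rt x).coeff 0 = (1 + x).coeff 0 := by
    rw [rt_mul (orderTop_pos_of_low hc hx)]
  have h2 := h0.coeff_mul h0
  rw [add_zero] at h2
  rw [h2, HahnSeries.coeff_add, HahnSeries.coeff_one, if_pos rfl, hx 0 hc, add_zero] at h1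
  have h3 : ((rt x).coeff 0 - 1) * ((rt x).coeff 0 + 1) = 0 := by linear_combination h1
  rcases mul_eq_zero.1 h3 with h4 | h4
  · exact sub_eq_zero.1 h4
  · exfalso
    have h5 := cf_rt x
    unfold cf at h5
    have h6 : (rt x).coeff 0 = -1 := eq_neg_of_add_eq_zero_left h4
    rw [h6] at h5
    have h7 : ((-1 : Lau F).coeff) (0, 0) = -1 := by
      rw [AddMonoidAlgebra.coeff_neg, AddMonoidAlgebra.one_def, AddMonoidAlgebra.coeff_single,
        Finsupp.neg_apply]
      exact congrArg Neg.neg Finsupp.single_eq_same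
    rw [h7] at h5
    have : (2 : F) ≠ 0 := two_ne_zero
    apply this
    linear_combination -h5

theorem low_drt {x x' : HR F} {c d : ℝ} (hc : 0 < c) (hx : Low x c) (hx' : Low x' c)
    (h0 : Low (rt x) 0) (h0' : Low (rt x') 0) (hd : Low (x - x') d) :
    Low (rt x - rt x') d := by
  have h1 := rt_mul (orderTop_pos_of_low hc hx)
  have h2 := rt_mul (orderTop_pos_of_low hc hx')
  have h3 : (rt x - rt x') * (rt x + rt x') = x - x' := by linear_combination h1 - h2
  by_cases hz : rt x - rt x' = 0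
  · rw [hz]; exact low_zero d
  intro n hn
  by_contra hne
  have h4 : (rt x - rt x').order < d := by
    refine lt_of_le_of_lt (HahnSeries.order_le_of_coeff_ne_zero hne) hn
  have h5 : Low (rt x - rt x') (rt x - rt x').order :=
    fun m hm => HahnSeries.coeff_eq_zero_of_lt_order hm
  have h6 := h5.coeff_mul (h0.add h0')
  rw [h3, add_zero, hd _ h4, HahnSeries.coeff_add, rt_coeff hc hx h0, rt_coeff hc hx' h0'] at h6
  have h7 : (1 + 1 : Lau F) ≠ 0 := by
    intro h8
    have h10 : (1 : Lau F).coeff (0, 0) = 1 := by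
      rw [AddMonoidAlgebra.one_def, AddMonoidAlgebra.coeff_single]
      exact Finsupp.single_eq_same
    have h9 : (1 + 1 : Lau F).coeff (0, 0) = 0 := by rw [h8]; rfl
    rw [AddMonoidAlgebra.coeff_add, Finsupp.add_apply, h10] at h9
    have h11 : (2 : F) ≠ 0 := two_ne_zero
    apply h11
    rw [← h9]; norm_num
  rcases mul_eq_zero.1 h6.symm with h8 | h8
  · exact HahnSeries.coeff_order_eq_zero.not.2 hz h8
  · exact h7 h8

/-- the equation on the tube -/
theorem hh_tube (ha : 0 < a) (hb : 0 < b) (hs : 0 < s) (hab : a + b = 1) :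
    hh (X1 a (q1 F b s)) (Y1 a (q1 F b s)) = -((1 + X1 a (q1 F b s)) * tz F (1 + s) 0 1) := by
  have h1 := rt_mul (ord_X1 ha hb (low_q1' (F := F) hs))
  have h2 := PQ F (s := s) hab
  have h3 : Y1 a (q1 F b s) ^ 2 = (1 + X1 a (q1 F b s)) * (q1 F b s - pP F a) ^ 2 := by
    unfold Y1
    rw [mul_pow, sq (rt _), h1]
  have h4 : (q1 F b s - pP F a) ^ 2 = X1 a (q1 F b s) ^ 2 - (tz F 1 0 0 + tz F (1 + s) 0 1) := by
    rw [← h2]
    unfold X1 q1
    linear_combination (-(pP F a * pQ F b s)) * four_c4 F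
  unfold hh
  rw [h3, h4]
  ring

theorem one_add_X1 {Q : HR F} (ha : 0 < a) (hb : 0 < b) (hQ : Low Q b) :
    Low (1 + X1 a Q) 0 ∧ (1 + X1 a Q).coeff 0 = 1 := by
  have h := low_X1 (a := a) hQ
  have hm : 0 < min a b := lt_min ha hb
  refine ⟨low_one.add (h.mono hm.le), ?_⟩
  rw [HahnSeries.coeff_add, h 0 hm, add_zero, HahnSeries.coeff_one, if_pos rfl]

theorem evp_X1 {p q : F} (hp : p ≠ 0) (hq : q ≠ 0) {Q : HR F} (hQ : Low Q b)
    (hab : a < b) : evp hp hq (X1 a Q) ≠ 0 := by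
  refine Van1.ne_of_coeff hp hq (a := a) (i := 1) (j := 0) ?_
  unfold X1 pP
  rw [HahnSeries.coeff_add, coeff_tz, hQ a hab, add_zero]

theorem evp_Y1 {p q : F} (hp : p ≠ 0) (hq : q ≠ 0) {Q : HR F} (ha : 0 < a) (hb : 0 < b)
    (hQ : Low Q b) (hab : a < b) : evp hp hq (Y1 a Q) ≠ 0 := by
  unfold Y1
  rw [map_mul]
  refine mul_ne_zero ?_ ?_
  · intro h
    have h1 := congrArg (evp hp hq) (rt_mul (ord_X1 ha hb hQ))
    rw [map_mul, h, zero_mul, map_add, map_one] at h1
    have h2 := congrArg (fun u : HK F => u.coeff 0) h1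
    simp only [HahnSeries.coeff_zero, HahnSeries.coeff_add, HahnSeries.coeff_one, if_true] at h2
    have h3 : (evp hp hq (X1 a Q)).coeff 0 = 0 := by
      rw [evp_coeff, low_X1 (a := a) hQ 0 (lt_min ha hb), map_zero]
    rw [h3, add_zero] at h2
    exact one_ne_zero h2.symm
  · intro h0
    have h1 : evp hp hq (pP F a - Q) = 0 := by
      rw [← neg_sub, map_neg, h0, neg_zero]
    refine Van1.ne_of_coeff hp hq (a := a) (i := 1) (j := 0) ?_ h1
    unfold pP
    rw [HahnSeries.coeff_sub, coeff_tz, hQ a hab, sub_zero]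

end tube

/-- the tube at radius `τ < 1 / 2` -/
noncomputable def tube (F : Type) [Field F] [CharZero F] {τ s : ℝ} (h0 : 0 < τ) (h1 : τ < 1 / 2)
    (hs : 0 < s) : Tube F τ s where
  x := X1 τ (q1 F (1 - τ) s)
  y := Y1 τ (q1 F (1 - τ) s)
  x0 := X1 τ (q0 F (1 - τ))
  y0 := Y1 τ (q0 F (1 - τ))
  low_x0 := by
    have hb : 0 < 1 - τ := by linarith
    exact Low_of_Mc h0 hb hs (Mc_X1 h0 hb hs (q0_data h0 hb hs).2.1)
  low_y0 := by
    have hb : 0 < 1 - τ := by linarith
    exact Low_of_Mc h0 hb hs (Mc_Y1 h0 hb hs (q0_data h0 hb hs).1 (q0_data h0 hb hs).2.1)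
  low_x := by
    have hb : 0 < 1 - τ := by linarith
    have : X1 τ (q1 F (1 - τ) s) - X1 τ (q0 F (1 - τ)) = q1 F (1 - τ) s - q0 F (1 - τ) := by
      unfold X1; ring
    rw [this]
    exact low_dq.mono (by linarith)
  low_y := by
    have hb : 0 < 1 - τ := by linarith
    obtain ⟨g1, g2, g3, g4⟩ := q0_data (F := F) h0 hb hs
    have hm : 0 < min τ (1 - τ) := lt_min h0 hb
    have k1 := low_X1 (a := τ) (low_q1' (F := F) (b := 1 - τ) hs)
    have k2 := low_X1 (a := τ) g1
    have k3 : Low (rt (X1 τ (q1 F (1 - τ) s))) 0 := Low_of_Mc h0 hb hs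
      (rt_wedge (orderTop_pos_of_low hm k1) (Mc_X1 h0 hb hs (Mc_q1 h0 hb hs)))
    have k4 : Low (rt (X1 τ (q0 F (1 - τ)))) 0 := Low_of_Mc h0 hb hs
      (rt_wedge (orderTop_pos_of_low hm k2) (Mc_X1 h0 hb hs g2))
    have k5 : Low (X1 τ (q1 F (1 - τ) s) - X1 τ (q0 F (1 - τ))) s := by
      have : X1 τ (q1 F (1 - τ) s) - X1 τ (q0 F (1 - τ)) = q1 F (1 - τ) s - q0 F (1 - τ) := by
        unfold X1; ring
      rw [this]
      exact low_dq.mono (by linarith)
    have k6 := low_drt hm k1 k2 k3 k4 k5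
    have k7 : Y1 τ (q1 F (1 - τ) s) - Y1 τ (q0 F (1 - τ)) =
        rt (X1 τ (q1 F (1 - τ) s)) * (q1 F (1 - τ) s - q0 F (1 - τ)) +
        (rt (X1 τ (q1 F (1 - τ) s)) - rt (X1 τ (q0 F (1 - τ)))) * (q0 F (1 - τ) - pP F τ) := by
      unfold Y1; ring
    rw [k7]
    have k8 := k3.mul (low_dq (F := F) (b := 1 - τ) (s := s))
    have k9 : Low (q0 F (1 - τ) - pP F τ) 0 :=
      (g1.mono hb.le).sub ((low_tz (F := F) τ 1 0).mono h0.le)
    have k10 := k6.mul k9
    rw [add_zero] at k10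
    exact (k8.mono (by linarith)).add k10
  expo := by
    intro M f c hf hne
    exact expo0 h0 (by linarith) (by ring) M f c hf hne
  low_h := by
    have hb : 0 < 1 - τ := by linarith
    rw [hh_tube h0 hb hs (by ring)]
    have := (one_add_X1 (F := F) h0 hb (low_q1' hs)).1.mul (low_tz (F := F) (1 + s) 0 1)
    rw [zero_add] at this
    exact this.neg
  lead_h := by
    have hb : 0 < 1 - τ := by linarith
    rw [hh_tube h0 hb hs (by ring), HahnSeries.coeff_neg]
    obtain ⟨k1, k2⟩ := one_add_X1 (F := F) h0 hb (low_q1' hs)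
    have := k1.coeff_mul (low_tz (F := F) (1 + s) 0 1)
    rw [zero_add, k2, coeff_tz, one_mul] at this
    rw [this, AddMonoidAlgebra.single_neg]
  point := by
    intro p q hp hq
    have hb : 0 < 1 - τ := by linarith
    exact ⟨evp_X1 hp hq (low_q1' hs) (by linarith), evp_Y1 hp hq h0 hb (low_q1' hs) (by linarith)⟩

end Pool.Agent.TH793.NS
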